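import Mathlib.Data.Set.Function
import Mathlib.Tactic.NormNum
import Mathlib.Tactic.Ring

namespace Pool.Agent.Results.MP_6850eb_nt.NotInjective

/-- The sequence generated from `a` by `k ↦ 2k+2` and `k ↦ 3k+3`:
`seq a 1 = a`, `seq a (2k) = 2 * seq a k + 2`, `seq a (2k+1) = 3 * seq a k + 3` for `k ≥ 1`
(the value at `0` is junk and never used below). -/
def seq (a : ℤ) : ℕ → ℤ
  | 0 => 0
  | 1 => a
  | (n + 2) => if (n + 2) % 2 = 0 then 2 * seq a ((n + 2) / 2) + 2
      else 3 * seq a ((n + 2) / 2) + 3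
decreasing_by all_goals omega

theorem seq_one (a : ℤ) : seq a 1 = a := by rw [seq]

theorem seq_even (a : ℤ) (k : ℕ) (hk : 1 ≤ k) : seq a (2 * k) = 2 * seq a k + 2 := by
  obtain ⟨m, rfl⟩ : ∃ m, k = m + 1 := ⟨k - 1, by omega⟩
  have h : 2 * (m + 1) = 2 * m + 2 := by ring
  rw [h, seq, if_pos (by omega)]
  have h2 : (2 * m + 2) / 2 = m + 1 := by omega
  rw [h2]

theorem seq_odd (a : ℤ) (k : ℕ) (hk : 1 ≤ k) : seq a (2 * k + 1) = 3 * seq a k + 3 := by
  obtain ⟨m, rfl⟩ : ∃ m, k = m + 1 := ⟨k - 1, by omega⟩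
  have h : 2 * (m + 1) + 1 = (2 * m + 1) + 2 := by ring
  rw [h, seq, if_neg (by omega)]
  have h2 : (2 * m + 1 + 2) / 2 = m + 1 := by omega
  rw [h2]

theorem neg4_a : seq (-4) 51 = -258 := by
  have h1 := seq_one (-4)
  have h3 := seq_odd (-4) 1 (by norm_num)
  have h6 := seq_even (-4) 3 (by norm_num)
  have h12 := seq_even (-4) 6 (by norm_num)
  have h25 := seq_odd (-4) 12 (by norm_num)
  have h51 := seq_odd (-4) 25 (by norm_num)
  norm_num at h1 h3 h6 h12 h25 h51
  rw [h51, h25, h12, h6, h3, h1]; norm_num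

theorem neg4_b : seq (-4) 128 = -258 := by
  have h1 := seq_one (-4)
  have h2 := seq_even (-4) 1 (by norm_num)
  have h4 := seq_even (-4) 2 (by norm_num)
  have h8 := seq_even (-4) 4 (by norm_num)
  have h16 := seq_even (-4) 8 (by norm_num)
  have h32 := seq_even (-4) 16 (by norm_num)
  have h64 := seq_even (-4) 32 (by norm_num)
  have h128 := seq_even (-4) 64 (by norm_num)
  norm_num at h1 h2 h4 h8 h16 h32 h64 h128
  rw [h128, h64, h32, h16, h8, h4, h2, h1]; norm_num

theorem three_a : seq 3 2043 = 177150 := by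
  have h1 := seq_one 3
  have h3 := seq_odd 3 1 (by norm_num)
  have h7 := seq_odd 3 3 (by norm_num)
  have h15 := seq_odd 3 7 (by norm_num)
  have h31 := seq_odd 3 15 (by norm_num)
  have h63 := seq_odd 3 31 (by norm_num)
  have h127 := seq_odd 3 63 (by norm_num)
  have h255 := seq_odd 3 127 (by norm_num)
  have h510 := seq_even 3 255 (by norm_num)
  have h1021 := seq_odd 3 510 (by norm_num)
  have h2043 := seq_odd 3 1021 (by norm_num)
  norm_num at h1 h3 h7 h15 h31 h63 h127 h255 h510 h1021 h2043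
  rw [h2043, h1021, h510, h255, h127, h63, h31, h15, h7, h3, h1]; norm_num

theorem three_b : seq 3 21504 = 177150 := by
  have h1 := seq_one 3
  have h2 := seq_even 3 1 (by norm_num)
  have h5 := seq_odd 3 2 (by norm_num)
  have h10 := seq_even 3 5 (by norm_num)
  have h21 := seq_odd 3 10 (by norm_num)
  have h42 := seq_even 3 21 (by norm_num)
  have h84 := seq_even 3 42 (by norm_num)
  have h168 := seq_even 3 84 (by norm_num)
  have h336 := seq_even 3 168 (by norm_num)
  have h672 := seq_even 3 336 (by norm_num)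
  have h1344 := seq_even 3 672 (by norm_num)
  have h2688 := seq_even 3 1344 (by norm_num)
  have h5376 := seq_even 3 2688 (by norm_num)
  have h10752 := seq_even 3 5376 (by norm_num)
  have h21504 := seq_even 3 10752 (by norm_num)
  norm_num at h1 h2 h5 h10 h21 h42 h84 h168 h336 h672 h1344 h2688 h5376 h10752 h21504
  rw [h21504, h10752, h5376, h2688, h1344, h672, h336, h168, h84, h42, h21, h10, h5, h2, h1]
  norm_num

/-- The assertion that `seq a` is injective on the positive integers for every integer `a` with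
`a < -3` or `a > 2` is false, and it fails on both sides: for `a = -4` and for `a = 3`. -/
theorem result :
    (¬ ∀ a : ℤ, (a < -3 ∨ 2 < a) → Set.InjOn (seq a) {n : ℕ | 1 ≤ n}) ∧
    ¬ Set.InjOn (seq (-4)) {n : ℕ | 1 ≤ n} ∧ ¬ Set.InjOn (seq 3) {n : ℕ | 1 ≤ n} := by
  have h4 : ¬ Set.InjOn (seq (-4)) {n : ℕ | 1 ≤ n} := by
    intro h
    have := h (show (51 : ℕ) ∈ {n : ℕ | 1 ≤ n} by simp) (show (128 : ℕ) ∈ {n : ℕ | 1 ≤ n} by simp)
      (neg4_a.trans neg4_b.symm)
    omega
  have h3 : ¬ Set.InjOn (seq 3) {n : ℕ | 1 ≤ n} := by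
    intro h
    have := h (show (2043 : ℕ) ∈ {n : ℕ | 1 ≤ n} by simp)
      (show (21504 : ℕ) ∈ {n : ℕ | 1 ≤ n} by simp) (three_a.trans three_b.symm)
    omega
  exact ⟨fun h => h4 (h (-4) (Or.inl (by norm_num))), h4, h3⟩

end Pool.Agent.Results.MP_6850eb_nt.NotInjective
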